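import Pool.Agent.H8.Fac4

namespace Pool.Agent.Results.MP_688354_co.Values

open Pool.Agent.H8.Fac

theorem result : IsLUB (ratios 3) (2 / 3) ∧ ∀ d : ℕ, 4 ≤ d → IsLUB (ratios d) 1 :=
  ⟨main3, main4⟩

end Pool.Agent.Results.MP_688354_co.Values
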